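import Pool.Agent.H.MP_e0e142_ag.A

set_option autoImplicit false

namespace Pool.Agent.Results.MP_e0e142_ag.Disconnected

theorem result : ∃ (n : ℕ) (G H : SimpleGraph (Fin n)), 1 ≤ n ∧
    ¬ IsPreconnected {S : Matrix (Fin n) (Fin n) ℝ | S.PosDef ∧
      (∀ i j, i ≠ j → ¬ G.Adj i j → S⁻¹ i j = 0) ∧ ∀ i j, i ≠ j → ¬ H.Adj i j → S i j = 0} ∧
    ¬ IsPreconnected {S : Matrix (Fin n) (Fin n) ℝ | S.PosDef ∧
      (∀ i j, i ≠ j → ¬ G.Adj i j → S⁻¹ i j = 0) ∧ (∀ i j, i ≠ j → ¬ H.Adj i j → S i j = 0) ∧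
      ∀ i, S i i = 1} :=
  open Pool.Agent.H.MP_e0e142_ag in ⟨11, GG, HH, by norm_num, fun h => one (two _ _ h), one⟩

end Pool.Agent.Results.MP_e0e142_ag.Disconnected
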